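import Pool.Agent.H999R3.AltBasic

set_option autoImplicit false
set_option linter.all false

/-! An element of additive order three: the identity `3 T = 0`. -/

namespace Pool.Agent.U104.AT

open Pool.Agent.H999R3

variable {B : Type*} [NonUnitalNonAssocRing B]

/-- The Jordan product `a b + b a`. -/
def jor (a b : B) : B := a * b + b * a

theorem jor_comm (a b : B) : jor a b = jor b a := by unfold jor; abel
theorem jor_add (a b c : B) : jor a (b + c) = jor a b + jor a c := by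
  unfold jor; simp only [mul_add, add_mul]; abel
theorem jor_neg (a b : B) : jor a (-b) = -jor a b := by
  unfold jor; simp only [mul_neg, neg_mul]; abel

/-- The element `T` of degree six: a sum over the five perfect matchings of a one-factorisation of the
complete graph on six vertices. -/
def tor (x : Fin 6 → B) : B :=
  as (jor (x 0) (x 1)) (jor (x 2) (x 3)) (jor (x 4) (x 5)) +
  as (jor (x 0) (x 2)) (jor (x 1) (x 4)) (jor (x 3) (x 5)) +
  as (jor (x 0) (x 3)) (jor (x 1) (x 5)) (jor (x 2) (x 4)) +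
  as (jor (x 0) (x 4)) (jor (x 2) (x 5)) (jor (x 1) (x 3)) +
  as (jor (x 0) (x 5)) (jor (x 3) (x 4)) (jor (x 1) (x 2))

variable (h : IsAlt B)
include h

theorem as_jor (x y z w : B) : as (jor x y) z w = jor x (as y z w) + jor y (as x z w) := by
  have h1 := as_mul1 x y z w
  have h2 := as_mul1 y x z w
  have h3 := kf_swap12 h x y z w
  unfold jor
  rw [as_add1, h1, h2, h3]
  abel

theorem J_expand (a b c d e f : B) : as (jor a b) (jor c d) (jor e f) =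
    jor a (jor c (jor e (as b d f))) + jor a (jor c (jor f (as b d e))) +
    jor a (jor d (jor e (as b c f))) + jor a (jor d (jor f (as b c e))) +
    jor b (jor c (jor e (as a d f))) + jor b (jor c (jor f (as a d e))) +
    jor b (jor d (jor e (as a c f))) + jor b (jor d (jor f (as a c e))) := by
  have key : ∀ u : B, as u (jor c d) (jor e f) =
      jor c (jor e (as u d f)) + jor c (jor f (as u d e)) +
      jor d (jor e (as u c f)) + jor d (jor f (as u c e)) := by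
    intro u
    have k2 : ∀ v : B, as v (jor e f) u = jor e (as u v f) + jor f (as u v e) := by
      intro v
      rw [as_cyc h v (jor e f) u, as_jor h e f u v, as_cyc h f u v, as_cyc h e u v]
    rw [as_cyc h u (jor c d) (jor e f), as_jor h c d (jor e f) u, k2 d, k2 c]
    simp only [jor_add]
    abel
  rw [as_jor h a b, key b, key a]
  simp only [jor_add]
  abel

/-- The linearisation of `(x ^ 2, x y + y x, y ^ 2) = 0`. -/
theorem E_zero (a b c d e f : B) :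
    as (jor b c) (jor a d) (jor e f) +
    as (jor b c) (jor a e) (jor d f) +
    as (jor b c) (jor a f) (jor d e) +
    as (jor a c) (jor b d) (jor e f) +
    as (jor a c) (jor b e) (jor d f) +
    as (jor a c) (jor b f) (jor d e) +
    as (jor a b) (jor c d) (jor e f) +
    as (jor a b) (jor c e) (jor d f) +
    as (jor a b) (jor c f) (jor d e) = 0 := by
  simp only [J_expand h]
  simp only [as_12 h b a d, as_12 h b a e, as_12 h b a f, as_12 h c a d, as_12 h c a e, as_12 h c a f, as_12 h c b d, as_12 h c b e, as_12 h c b f, as_23 h a e d, as_23 h a f d, as_23 h a f e, as_23 h b e d, as_23 h b f d, as_23 h b f e, as_23 h c e d, as_23 h c f d, as_23 h c f e, jor_neg]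
  abel

theorem three_tor (x : Fin 6 → B) : tor x + tor x + tor x = 0 := by
  have e0 := E_zero h (x 0) (x 1) (x 2) (x 3) (x 4) (x 5)
  have e1 := E_zero h (x 0) (x 1) (x 3) (x 2) (x 4) (x 5)
  have e2 := E_zero h (x 0) (x 2) (x 3) (x 1) (x 4) (x 5)
  have e3 := E_zero h (x 0) (x 2) (x 5) (x 1) (x 3) (x 4)
  have e4 := E_zero h (x 0) (x 3) (x 4) (x 1) (x 2) (x 5)
  unfold tor
  simp only [jor_comm (x 1) (x 0), jor_comm (x 2) (x 0), jor_comm (x 3) (x 0), jor_comm (x 4) (x 0), jor_comm (x 5) (x 0), jor_comm (x 2) (x 1), jor_comm (x 3) (x 1), jor_comm (x 4) (x 1), jor_comm (x 5) (x 1), jor_comm (x 3) (x 2), jor_comm (x 4) (x 2), jor_comm (x 5) (x 2), jor_comm (x 4) (x 3), jor_comm (x 5) (x 3), jor_comm (x 5) (x 4)] at e0 e1 e2 e3 e4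
  have b0 : as (jor (x 0) (x 1)) (jor (x 3) (x 4)) (jor (x 2) (x 5)) = -as (jor (x 0) (x 1)) (jor (x 2) (x 5)) (jor (x 3) (x 4)) := as_23 h _ _ _
  have b1 : as (jor (x 0) (x 1)) (jor (x 3) (x 5)) (jor (x 2) (x 4)) = -as (jor (x 0) (x 1)) (jor (x 2) (x 4)) (jor (x 3) (x 5)) := as_23 h _ _ _
  have b2 : as (jor (x 0) (x 2)) (jor (x 3) (x 4)) (jor (x 1) (x 5)) = -as (jor (x 0) (x 2)) (jor (x 1) (x 5)) (jor (x 3) (x 4)) := as_23 h _ _ _
  have b3 : as (jor (x 0) (x 2)) (jor (x 3) (x 5)) (jor (x 1) (x 4)) = -as (jor (x 0) (x 2)) (jor (x 1) (x 4)) (jor (x 3) (x 5)) := as_23 h _ _ _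
  have b4 : as (jor (x 0) (x 2)) (jor (x 4) (x 5)) (jor (x 1) (x 3)) = -as (jor (x 0) (x 2)) (jor (x 1) (x 3)) (jor (x 4) (x 5)) := as_23 h _ _ _
  have b5 : as (jor (x 0) (x 3)) (jor (x 2) (x 4)) (jor (x 1) (x 5)) = -as (jor (x 0) (x 3)) (jor (x 1) (x 5)) (jor (x 2) (x 4)) := as_23 h _ _ _
  have b6 : as (jor (x 0) (x 3)) (jor (x 2) (x 5)) (jor (x 1) (x 4)) = -as (jor (x 0) (x 3)) (jor (x 1) (x 4)) (jor (x 2) (x 5)) := as_23 h _ _ _
  have b7 : as (jor (x 0) (x 3)) (jor (x 4) (x 5)) (jor (x 1) (x 2)) = -as (jor (x 0) (x 3)) (jor (x 1) (x 2)) (jor (x 4) (x 5)) := as_23 h _ _ _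
  have b8 : as (jor (x 0) (x 4)) (jor (x 2) (x 3)) (jor (x 1) (x 5)) = -as (jor (x 0) (x 4)) (jor (x 1) (x 5)) (jor (x 2) (x 3)) := as_23 h _ _ _
  have b9 : as (jor (x 0) (x 4)) (jor (x 2) (x 5)) (jor (x 1) (x 3)) = -as (jor (x 0) (x 4)) (jor (x 1) (x 3)) (jor (x 2) (x 5)) := as_23 h _ _ _
  have b10 : as (jor (x 0) (x 4)) (jor (x 3) (x 5)) (jor (x 1) (x 2)) = -as (jor (x 0) (x 4)) (jor (x 1) (x 2)) (jor (x 3) (x 5)) := as_23 h _ _ _
  have b11 : as (jor (x 0) (x 5)) (jor (x 2) (x 3)) (jor (x 1) (x 4)) = -as (jor (x 0) (x 5)) (jor (x 1) (x 4)) (jor (x 2) (x 3)) := as_23 h _ _ _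
  have b12 : as (jor (x 0) (x 5)) (jor (x 2) (x 4)) (jor (x 1) (x 3)) = -as (jor (x 0) (x 5)) (jor (x 1) (x 3)) (jor (x 2) (x 4)) := as_23 h _ _ _
  have b13 : as (jor (x 0) (x 5)) (jor (x 3) (x 4)) (jor (x 1) (x 2)) = -as (jor (x 0) (x 5)) (jor (x 1) (x 2)) (jor (x 3) (x 4)) := as_23 h _ _ _
  have b14 : as (jor (x 1) (x 2)) (jor (x 0) (x 3)) (jor (x 4) (x 5)) = -as (jor (x 0) (x 3)) (jor (x 1) (x 2)) (jor (x 4) (x 5)) := as_12 h _ _ _
  have b15 : as (jor (x 1) (x 2)) (jor (x 0) (x 4)) (jor (x 3) (x 5)) = -as (jor (x 0) (x 4)) (jor (x 1) (x 2)) (jor (x 3) (x 5)) := as_12 h _ _ _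
  have b16 : as (jor (x 1) (x 2)) (jor (x 0) (x 5)) (jor (x 3) (x 4)) = -as (jor (x 0) (x 5)) (jor (x 1) (x 2)) (jor (x 3) (x 4)) := as_12 h _ _ _
  have b17 : as (jor (x 1) (x 3)) (jor (x 0) (x 2)) (jor (x 4) (x 5)) = -as (jor (x 0) (x 2)) (jor (x 1) (x 3)) (jor (x 4) (x 5)) := as_12 h _ _ _
  have b18 : as (jor (x 1) (x 3)) (jor (x 0) (x 4)) (jor (x 2) (x 5)) = -as (jor (x 0) (x 4)) (jor (x 1) (x 3)) (jor (x 2) (x 5)) := as_12 h _ _ _
  have b19 : as (jor (x 1) (x 3)) (jor (x 0) (x 5)) (jor (x 2) (x 4)) = -as (jor (x 0) (x 5)) (jor (x 1) (x 3)) (jor (x 2) (x 4)) := as_12 h _ _ _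
  have b20 : as (jor (x 2) (x 3)) (jor (x 0) (x 1)) (jor (x 4) (x 5)) = -as (jor (x 0) (x 1)) (jor (x 2) (x 3)) (jor (x 4) (x 5)) := as_12 h _ _ _
  have b21 : as (jor (x 2) (x 3)) (jor (x 0) (x 4)) (jor (x 1) (x 5)) = as (jor (x 0) (x 4)) (jor (x 1) (x 5)) (jor (x 2) (x 3)) := as_cyc h _ _ _
  have b22 : as (jor (x 2) (x 3)) (jor (x 0) (x 5)) (jor (x 1) (x 4)) = as (jor (x 0) (x 5)) (jor (x 1) (x 4)) (jor (x 2) (x 3)) := as_cyc h _ _ _
  have b23 : as (jor (x 2) (x 5)) (jor (x 0) (x 1)) (jor (x 3) (x 4)) = -as (jor (x 0) (x 1)) (jor (x 2) (x 5)) (jor (x 3) (x 4)) := as_12 h _ _ _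
  have b24 : as (jor (x 2) (x 5)) (jor (x 0) (x 3)) (jor (x 1) (x 4)) = as (jor (x 0) (x 3)) (jor (x 1) (x 4)) (jor (x 2) (x 5)) := as_cyc h _ _ _
  have b25 : as (jor (x 2) (x 5)) (jor (x 0) (x 4)) (jor (x 1) (x 3)) = as (jor (x 0) (x 4)) (jor (x 1) (x 3)) (jor (x 2) (x 5)) := as_cyc h _ _ _
  have b26 : as (jor (x 3) (x 4)) (jor (x 0) (x 1)) (jor (x 2) (x 5)) = as (jor (x 0) (x 1)) (jor (x 2) (x 5)) (jor (x 3) (x 4)) := as_cyc h _ _ _
  have b27 : as (jor (x 3) (x 4)) (jor (x 0) (x 2)) (jor (x 1) (x 5)) = as (jor (x 0) (x 2)) (jor (x 1) (x 5)) (jor (x 3) (x 4)) := as_cyc h _ _ _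
  have b28 : as (jor (x 3) (x 4)) (jor (x 0) (x 5)) (jor (x 1) (x 2)) = as (jor (x 0) (x 5)) (jor (x 1) (x 2)) (jor (x 3) (x 4)) := as_cyc h _ _ _
  simp only [b0, b1, b2, b3, b4, b5, b6, b7, b8, b9, b10, b11, b12, b13, b14, b15, b16, b17, b18, b19, b20, b21, b22, b23, b24, b25, b26, b27, b28] at e0 e1 e2 e3 e4 ⊢
  linear_combination (norm := abel) e0 + e1 - e2 - e3 - e4

end Pool.Agent.U104.AT
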