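import Pool.Agent.U104.AT.Ring

set_option autoImplicit false
set_option linter.all false

/-! The element `T` in free alternative algebras. -/

namespace Pool.Agent.U104.AT

open Pool.Agent.H999R3 Pool.Agent.Helper805.Nuc.Free

theorem free_isAlt {Φ : Type} [CommRing Φ] {X : Type} : IsAlt (FreeAlt Φ X) :=
  fun x y => ⟨FreeAlt.isAlt.left x y, FreeAlt.isAlt.right x y⟩

theorem three_smul {Φ : Type} [CommRing Φ] {X : Type} (y : Fin 6 → FreeAlt Φ X) :
    (3 : Φ) • tor y = 0 := by
  have h := three_tor (free_isAlt (Φ := Φ) (X := X)) y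
  have e3 : (3 : Φ) • tor y = tor y + tor y + tor y := by
    have : (3 : Φ) = 1 + 1 + 1 := by norm_num
    rw [this, add_smul, add_smul, one_smul]
  rw [e3, h]

theorem map_tor {Φ : Type} [CommRing Φ] {A B : Type} [NonUnitalNonAssocRing A] [NonUnitalNonAssocRing B]
    [Module Φ A] [Module Φ B] (φ : A →ₙₐ[Φ] B) (y : Fin 6 → A) : φ (tor y) = tor (fun i => φ (y i)) := by
  unfold tor as jor
  simp only [map_add, map_sub, map_mul]

section hom

variable {Φ : Type} [CommRing Φ] {X I : Type}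

/-- the residue ring modulo three -/
abbrev Q3 (Φ : Type) [CommRing Φ] : Type := Φ ⧸ Ideal.span {(3 : Φ)}

theorem three_q : (3 : Q3 Φ) = 0 := by
  have h : Ideal.Quotient.mk (Ideal.span {(3 : Φ)}) 3 = 0 :=
    Ideal.Quotient.eq_zero_iff_mem.2 (Ideal.subset_span rfl)
  rw [← h, map_ofNat]

open Classical in
/-- the images of the generators -/
noncomputable def img (x : I × Fin 6 → X) (i : I) (t : X) : MB (Q3 Φ) :=
  if h : ∃ j : Fin 6, x (i, j) = t then gens h.choose else 0

theorem img_self {x : I × Fin 6 → X} (hx : Function.Injective x) (i : I) (j : Fin 6) :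
    img (Φ := Φ) x i (x (i, j)) = gens j := by
  unfold img
  have h : ∃ j' : Fin 6, x (i, j') = x (i, j) := ⟨j, rfl⟩
  rw [dif_pos h]
  congr 1
  exact (Prod.ext_iff.1 (hx h.choose_spec)).2

theorem img_other {x : I × Fin 6 → X} (hx : Function.Injective x) {i i' : I} (hi : i ≠ i') (j : Fin 6) :
    img (Φ := Φ) x i (x (i', j)) = 0 := by
  unfold img
  have h : ¬ ∃ j' : Fin 6, x (i, j') = x (i', j) := by
    rintro ⟨j', h⟩
    exact hi (Prod.ext_iff.1 (hx h)).1
  rw [dif_neg h]

theorem tor_zero : tor (fun _ => (0 : MB (Q3 Φ))) = 0 := by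
  have h : jor (0 : MB (Q3 Φ)) 0 = 0 := by unfold jor; simp
  unfold tor
  rw [h, as_z1]
  simp

/-- the homomorphism which sends the `i`-th six generators to the basis elements and the others to zero -/
noncomputable def hom (x : I × Fin 6 → X) (i : I) : FreeAlt Φ X →ₙₐ[Φ] MB (Q3 Φ) :=
  FreeAlt.lift (mb_isAlt' three_q) (img x i)

theorem hom_self {x : I × Fin 6 → X} (hx : Function.Injective x) (i : I) :
    hom (Φ := Φ) x i (tor fun j => FreeAlt.gen (x (i, j))) = (8 : ℤ) • e 48 := by
  rw [map_tor, ← tor_gens]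
  congr 1
  funext j
  unfold hom
  rw [FreeAlt.lift_gen, img_self hx]

theorem hom_other {x : I × Fin 6 → X} (hx : Function.Injective x) {i i' : I} (hi : i ≠ i') :
    hom (Φ := Φ) x i (tor fun j => FreeAlt.gen (x (i', j))) = 0 := by
  rw [map_tor, ← tor_zero]
  congr 1
  funext j
  unfold hom
  rw [FreeAlt.lift_gen, img_other hx hi]

/-- The relations between the elements `T` of disjoint sets of generators. -/
theorem relations {x : I × Fin 6 → X} (hx : Function.Injective x) (c : I →₀ Φ) :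
    (c.sum fun i a => a • (tor fun j => (FreeAlt.gen (x (i, j)) : FreeAlt Φ X))) = 0 ↔
      ∀ i, (3 : Φ) ∣ c i := by
  classical
  constructor
  · intro h i
    have h1 := congrArg (hom (Φ := Φ) x i) h
    rw [Finsupp.sum, map_sum, map_zero] at h1
    have h2 : ∑ a ∈ c.support, hom (Φ := Φ) x i (c a • tor fun j => (FreeAlt.gen (x (a, j)) : FreeAlt Φ X))
        = c i • ((8 : ℤ) • (e 48 : MB (Q3 Φ))) := by
      rw [Finset.sum_eq_single i]
      · rw [map_smul, hom_self hx]
      · intro b _ hb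
        rw [map_smul, hom_other hx (Ne.symm hb), smul_zero]
      · intro hi
        rw [Finsupp.notMem_support_iff.1 hi, zero_smul, map_zero]
    rw [h2] at h1
    have h3 := congrFun h1 48
    have h4 : (c i • ((8 : ℤ) • (e 48 : MB (Q3 Φ)))) 48
        = Ideal.Quotient.mk (Ideal.span {(3 : Φ)}) (c i) * 8 := by
      show c i • ((8 : ℤ) • (if (48 : Fin 49) = 48 then (1 : Q3 Φ) else 0)) = _
      rw [if_pos rfl, zsmul_one, Algebra.smul_def]
      norm_num
    rw [h4] at h3
    have h5 : Ideal.Quotient.mk (Ideal.span {(3 : Φ)}) (c i) = 0 := by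
      have h6 : (3 : Q3 Φ) = 0 := three_q
      have h7 : Ideal.Quotient.mk (Ideal.span {(3 : Φ)}) (c i) * 8 = 0 := h3
      linear_combination 3 * Ideal.Quotient.mk (Ideal.span {(3 : Φ)}) (c i) * h6 - h7
    exact Ideal.mem_span_singleton.1 (Ideal.Quotient.eq_zero_iff_mem.1 h5)
  · intro h
    rw [Finsupp.sum]
    refine Finset.sum_eq_zero fun i _ => ?_
    obtain ⟨d, hd⟩ := h i
    rw [hd, mul_comm, mul_smul, three_smul, smul_zero]

end hom

/-- One set of six generators. -/
theorem tor_eq_zero_iff {Φ : Type} [CommRing Φ] {X : Type} (x : Fin 6 ↪ X) :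
    tor (fun i => (FreeAlt.gen (x i) : FreeAlt Φ X)) = 0 ↔ IsUnit (3 : Φ) := by
  have hx : Function.Injective (fun p : Unit × Fin 6 => x p.2) := by
    rintro ⟨⟨⟩, a⟩ ⟨⟨⟩, b⟩ h
    have h' : x a = x b := h
    rw [x.injective h']
  have h := relations (Φ := Φ) hx (Finsupp.single () 1)
  have e : ((Finsupp.single () (1 : Φ)).sum fun i a =>
      a • (tor fun j => (FreeAlt.gen (x j) : FreeAlt Φ X))) =
      tor fun j => (FreeAlt.gen (x j) : FreeAlt Φ X) := by
    rw [Finsupp.sum_single_index (by rw [zero_smul]), one_smul]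
  have e' : (tor fun j => (FreeAlt.gen (x j) : FreeAlt Φ X)) = 0 ↔
      ∀ i, (3 : Φ) ∣ (Finsupp.single () (1 : Φ)) i := by
    rw [← e]
    exact h
  rw [e']
  constructor
  · intro h1
    have := h1 ()
    rw [Finsupp.single_eq_same] at this
    exact isUnit_of_dvd_one this
  · intro h1 i
    exact h1.dvd

theorem not_free {Φ : Type} [CommRing Φ] {X : Type} (x : Fin 6 ↪ X) (h1 : ¬ IsUnit (3 : Φ))
    (h2 : (3 : Φ) ∈ nonZeroDivisors Φ) : ¬ Module.Flat Φ (FreeAlt Φ X) := by
  intro hf
  apply h1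
  rw [← tor_eq_zero_iff x]
  have h3 := three_smul (Φ := Φ) (fun i => (FreeAlt.gen (x i) : FreeAlt Φ X))
  have h4 := Module.Flat.isSMulRegular_of_nonZeroDivisors (M := FreeAlt Φ X) h2
  apply h4
  show (3 : Φ) • _ = (3 : Φ) • (0 : FreeAlt Φ X)
  rw [h3, smul_zero]

end Pool.Agent.U104.AT
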