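import Pool.Agent.U104.AT.Iden
import Pool.Agent.Helper805.Nuc.Free

set_option autoImplicit false
set_option linter.all false

/-! A commutative algebra of rank 49 with `(a b) c + (b c) a + (c a) b = 0`, in which `T` is not divisible by
anything but the units. In characteristic three it is alternative. -/

namespace Pool.Agent.U104.AT

open Pool.Agent.H999R3

/-- The structure constants: for `(i, j, c)` in `tbl k` the coefficient of the `k`-th basis element in the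
product of the `i`-th and the `j`-th is `c`. -/
def tbl : ℕ → List (Fin 49 × Fin 49 × ℤ)
  | 6 => [(0, 1, 1)]
  | 7 => [(0, 2, 1)]
  | 8 => [(0, 3, 1)]
  | 9 => [(1, 4, 1)]
  | 10 => [(2, 4, 1)]
  | 11 => [(3, 4, 1)]
  | 12 => [(1, 5, 1)]
  | 13 => [(2, 5, 1)]
  | 14 => [(3, 5, 1)]
  | 15 => [(1, 7, 1), (2, 6, -1)]
  | 16 => [(1, 8, 1), (3, 6, -1)]
  | 17 => [(2, 8, 1), (3, 7, -1)]
  | 18 => [(0, 9, 1), (4, 6, -1)]
  | 19 => [(0, 10, 1), (4, 7, -1)]
  | 20 => [(1, 10, 1), (2, 9, -1)]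
  | 21 => [(0, 11, 1), (4, 8, -1)]
  | 22 => [(1, 11, 1), (3, 9, -1)]
  | 23 => [(2, 11, 1), (3, 10, -1)]
  | 24 => [(1, 13, 1), (2, 12, -1)]
  | 25 => [(0, 14, 1), (5, 8, -1)]
  | 26 => [(1, 14, 1), (3, 12, -1)]
  | 27 => [(2, 14, 1), (3, 13, -1)]
  | 28 => [(4, 14, 1), (5, 11, -1)]
  | 29 => [(1, 17, 1), (2, 16, -1), (3, 15, 1)]
  | 30 => [(0, 20, 1), (1, 19, -1), (2, 18, 1), (4, 15, -1)]
  | 31 => [(0, 22, 1), (4, 16, -1), (6, 11, -1), (8, 9, 1)]
  | 32 => [(1, 21, 1), (3, 18, -1), (6, 11, -1), (8, 9, 1)]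
  | 33 => [(0, 23, 1), (4, 17, -1), (7, 11, -1), (8, 10, 1)]
  | 34 => [(2, 21, 1), (3, 19, -1), (7, 11, -1), (8, 10, 1)]
  | 35 => [(1, 23, 1), (2, 22, -1), (3, 20, 1)]
  | 36 => [(0, 24, 1), (5, 15, -1), (6, 13, -1), (7, 12, 1)]
  | 37 => [(0, 26, 1), (5, 16, -1), (6, 14, -1), (8, 12, 1)]
  | 38 => [(0, 27, 1), (5, 17, -1), (7, 14, -1), (8, 13, 1)]
  | 39 => [(4, 24, 1), (5, 20, -1), (9, 13, -1), (10, 12, 1)]
  | 40 => [(0, 28, 1), (4, 25, -1), (5, 21, 1)]
  | 41 => [(4, 26, 1), (5, 22, -1), (9, 14, -1), (11, 12, 1)]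
  | 42 => [(4, 27, 1), (5, 23, -1), (10, 14, -1), (11, 13, 1)]
  | 43 => [(0, 35, 1), (1, 33, -1), (1, 34, 1), (2, 31, 1), (2, 32, -1), (3, 30, -1), (4, 29, -1)]
  | 44 => [(1, 38, 1), (2, 37, -1), (3, 36, 1), (5, 29, 1), (6, 27, -1), (7, 26, 1), (8, 24, -1)]
  | 45 => [(0, 41, 1), (1, 40, 1), (4, 37, -1), (5, 31, 1), (6, 28, -1), (9, 25, 1), (12, 21, -1)]
  | 46 => [(0, 42, 1), (2, 40, 1), (4, 38, -1), (5, 33, 1), (7, 28, -1), (10, 25, 1), (13, 21, -1)]
  | 47 => [(1, 42, 1), (2, 41, -1), (3, 39, 1), (5, 35, 1), (9, 27, -1), (10, 26, 1), (11, 24, -1)]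
  | 48 => [(0, 47, 1), (1, 46, -1), (2, 45, 1), (4, 44, -1), (5, 43, -1), (8, 39, -1), (11, 36, 1), (12, 34, 1), (13, 32, -1), (14, 30, -1), (15, 28, -1), (18, 27, 1), (19, 26, -1), (20, 25, 1)]
  | _ => []

section R

variable {R : Type} [CommRing R]

/-- the product -/
def mulB (x y : Fin 49 → R) : Fin 49 → R := fun k =>
  ((tbl k.val).map fun t => (t.2.2 : R) * (x t.1 * y t.2.1 + x t.2.1 * y t.1)).sum

theorem mulB_comm (x y : Fin 49 → R) : mulB x y = mulB y x := by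
  funext k
  unfold mulB
  congr 2
  funext t
  ring

theorem mulB_add (x y z : Fin 49 → R) : mulB x (y + z) = mulB x y + mulB x z := by
  funext k
  show mulB x (y + z) k = mulB x y k + mulB x z k
  unfold mulB
  rw [← List.sum_map_add]
  congr 2
  funext t
  simp only [Pi.add_apply]
  ring

theorem mulB_zero (x : Fin 49 → R) : mulB x 0 = 0 := by
  funext k
  unfold mulB
  simp

theorem mulB_smul (c : R) (x y : Fin 49 → R) : mulB x (c • y) = c • mulB x y := by
  funext k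
  show mulB x (c • y) k = c * mulB x y k
  unfold mulB
  rw [← List.sum_map_mul_left]
  congr 2
  funext t
  simp only [Pi.smul_apply, smul_eq_mul]
  ring

theorem c0 (x y : Fin 49 → R) : mulB x y 0 = 0 := rfl

theorem c1 (x y : Fin 49 → R) : mulB x y 1 = 0 := rfl

theorem c2 (x y : Fin 49 → R) : mulB x y 2 = 0 := rfl

theorem c3 (x y : Fin 49 → R) : mulB x y 3 = 0 := rfl

theorem c4 (x y : Fin 49 → R) : mulB x y 4 = 0 := rfl

theorem c5 (x y : Fin 49 → R) : mulB x y 5 = 0 := rfl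

theorem c6 (x y : Fin 49 → R) : mulB x y 6 = (x 0 * y 1 + x 1 * y 0) := by
  have h : mulB x y 6 = ((tbl 6).map fun t => (t.2.2 : R) * (x t.1 * y t.2.1 + x t.2.1 * y t.1)).sum := rfl
  rw [h]
  simp only [tbl, List.map_cons, List.map_nil, List.sum_cons, List.sum_nil, Int.cast_one, Int.cast_neg]
  ring

theorem c7 (x y : Fin 49 → R) : mulB x y 7 = (x 0 * y 2 + x 2 * y 0) := by
  have h : mulB x y 7 = ((tbl 7).map fun t => (t.2.2 : R) * (x t.1 * y t.2.1 + x t.2.1 * y t.1)).sum := rfl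
  rw [h]
  simp only [tbl, List.map_cons, List.map_nil, List.sum_cons, List.sum_nil, Int.cast_one, Int.cast_neg]
  ring

theorem c8 (x y : Fin 49 → R) : mulB x y 8 = (x 0 * y 3 + x 3 * y 0) := by
  have h : mulB x y 8 = ((tbl 8).map fun t => (t.2.2 : R) * (x t.1 * y t.2.1 + x t.2.1 * y t.1)).sum := rfl
  rw [h]
  simp only [tbl, List.map_cons, List.map_nil, List.sum_cons, List.sum_nil, Int.cast_one, Int.cast_neg]
  ring

theorem c9 (x y : Fin 49 → R) : mulB x y 9 = (x 1 * y 4 + x 4 * y 1) := by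
  have h : mulB x y 9 = ((tbl 9).map fun t => (t.2.2 : R) * (x t.1 * y t.2.1 + x t.2.1 * y t.1)).sum := rfl
  rw [h]
  simp only [tbl, List.map_cons, List.map_nil, List.sum_cons, List.sum_nil, Int.cast_one, Int.cast_neg]
  ring

theorem c10 (x y : Fin 49 → R) : mulB x y 10 = (x 2 * y 4 + x 4 * y 2) := by
  have h : mulB x y 10 = ((tbl 10).map fun t => (t.2.2 : R) * (x t.1 * y t.2.1 + x t.2.1 * y t.1)).sum := rfl
  rw [h]
  simp only [tbl, List.map_cons, List.map_nil, List.sum_cons, List.sum_nil, Int.cast_one, Int.cast_neg]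
  ring

theorem c11 (x y : Fin 49 → R) : mulB x y 11 = (x 3 * y 4 + x 4 * y 3) := by
  have h : mulB x y 11 = ((tbl 11).map fun t => (t.2.2 : R) * (x t.1 * y t.2.1 + x t.2.1 * y t.1)).sum := rfl
  rw [h]
  simp only [tbl, List.map_cons, List.map_nil, List.sum_cons, List.sum_nil, Int.cast_one, Int.cast_neg]
  ring

theorem c12 (x y : Fin 49 → R) : mulB x y 12 = (x 1 * y 5 + x 5 * y 1) := by
  have h : mulB x y 12 = ((tbl 12).map fun t => (t.2.2 : R) * (x t.1 * y t.2.1 + x t.2.1 * y t.1)).sum := rfl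
  rw [h]
  simp only [tbl, List.map_cons, List.map_nil, List.sum_cons, List.sum_nil, Int.cast_one, Int.cast_neg]
  ring

theorem c13 (x y : Fin 49 → R) : mulB x y 13 = (x 2 * y 5 + x 5 * y 2) := by
  have h : mulB x y 13 = ((tbl 13).map fun t => (t.2.2 : R) * (x t.1 * y t.2.1 + x t.2.1 * y t.1)).sum := rfl
  rw [h]
  simp only [tbl, List.map_cons, List.map_nil, List.sum_cons, List.sum_nil, Int.cast_one, Int.cast_neg]
  ring

theorem c14 (x y : Fin 49 → R) : mulB x y 14 = (x 3 * y 5 + x 5 * y 3) := by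
  have h : mulB x y 14 = ((tbl 14).map fun t => (t.2.2 : R) * (x t.1 * y t.2.1 + x t.2.1 * y t.1)).sum := rfl
  rw [h]
  simp only [tbl, List.map_cons, List.map_nil, List.sum_cons, List.sum_nil, Int.cast_one, Int.cast_neg]
  ring

theorem c15 (x y : Fin 49 → R) : mulB x y 15 = (x 1 * y 7 + x 7 * y 1) + -(x 2 * y 6 + x 6 * y 2) := by
  have h : mulB x y 15 = ((tbl 15).map fun t => (t.2.2 : R) * (x t.1 * y t.2.1 + x t.2.1 * y t.1)).sum := rfl
  rw [h]
  simp only [tbl, List.map_cons, List.map_nil, List.sum_cons, List.sum_nil, Int.cast_one, Int.cast_neg]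
  ring

theorem c16 (x y : Fin 49 → R) : mulB x y 16 = (x 1 * y 8 + x 8 * y 1) + -(x 3 * y 6 + x 6 * y 3) := by
  have h : mulB x y 16 = ((tbl 16).map fun t => (t.2.2 : R) * (x t.1 * y t.2.1 + x t.2.1 * y t.1)).sum := rfl
  rw [h]
  simp only [tbl, List.map_cons, List.map_nil, List.sum_cons, List.sum_nil, Int.cast_one, Int.cast_neg]
  ring

theorem c17 (x y : Fin 49 → R) : mulB x y 17 = (x 2 * y 8 + x 8 * y 2) + -(x 3 * y 7 + x 7 * y 3) := by
  have h : mulB x y 17 = ((tbl 17).map fun t => (t.2.2 : R) * (x t.1 * y t.2.1 + x t.2.1 * y t.1)).sum := rfl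
  rw [h]
  simp only [tbl, List.map_cons, List.map_nil, List.sum_cons, List.sum_nil, Int.cast_one, Int.cast_neg]
  ring

theorem c18 (x y : Fin 49 → R) : mulB x y 18 = (x 0 * y 9 + x 9 * y 0) + -(x 4 * y 6 + x 6 * y 4) := by
  have h : mulB x y 18 = ((tbl 18).map fun t => (t.2.2 : R) * (x t.1 * y t.2.1 + x t.2.1 * y t.1)).sum := rfl
  rw [h]
  simp only [tbl, List.map_cons, List.map_nil, List.sum_cons, List.sum_nil, Int.cast_one, Int.cast_neg]
  ring

theorem c19 (x y : Fin 49 → R) : mulB x y 19 = (x 0 * y 10 + x 10 * y 0) + -(x 4 * y 7 + x 7 * y 4) := by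
  have h : mulB x y 19 = ((tbl 19).map fun t => (t.2.2 : R) * (x t.1 * y t.2.1 + x t.2.1 * y t.1)).sum := rfl
  rw [h]
  simp only [tbl, List.map_cons, List.map_nil, List.sum_cons, List.sum_nil, Int.cast_one, Int.cast_neg]
  ring

theorem c20 (x y : Fin 49 → R) : mulB x y 20 = (x 1 * y 10 + x 10 * y 1) + -(x 2 * y 9 + x 9 * y 2) := by
  have h : mulB x y 20 = ((tbl 20).map fun t => (t.2.2 : R) * (x t.1 * y t.2.1 + x t.2.1 * y t.1)).sum := rfl
  rw [h]
  simp only [tbl, List.map_cons, List.map_nil, List.sum_cons, List.sum_nil, Int.cast_one, Int.cast_neg]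
  ring

theorem c21 (x y : Fin 49 → R) : mulB x y 21 = (x 0 * y 11 + x 11 * y 0) + -(x 4 * y 8 + x 8 * y 4) := by
  have h : mulB x y 21 = ((tbl 21).map fun t => (t.2.2 : R) * (x t.1 * y t.2.1 + x t.2.1 * y t.1)).sum := rfl
  rw [h]
  simp only [tbl, List.map_cons, List.map_nil, List.sum_cons, List.sum_nil, Int.cast_one, Int.cast_neg]
  ring

theorem c22 (x y : Fin 49 → R) : mulB x y 22 = (x 1 * y 11 + x 11 * y 1) + -(x 3 * y 9 + x 9 * y 3) := by
  have h : mulB x y 22 = ((tbl 22).map fun t => (t.2.2 : R) * (x t.1 * y t.2.1 + x t.2.1 * y t.1)).sum := rfl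
  rw [h]
  simp only [tbl, List.map_cons, List.map_nil, List.sum_cons, List.sum_nil, Int.cast_one, Int.cast_neg]
  ring

theorem c23 (x y : Fin 49 → R) : mulB x y 23 = (x 2 * y 11 + x 11 * y 2) + -(x 3 * y 10 + x 10 * y 3) := by
  have h : mulB x y 23 = ((tbl 23).map fun t => (t.2.2 : R) * (x t.1 * y t.2.1 + x t.2.1 * y t.1)).sum := rfl
  rw [h]
  simp only [tbl, List.map_cons, List.map_nil, List.sum_cons, List.sum_nil, Int.cast_one, Int.cast_neg]
  ring

theorem c24 (x y : Fin 49 → R) : mulB x y 24 = (x 1 * y 13 + x 13 * y 1) + -(x 2 * y 12 + x 12 * y 2) := by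
  have h : mulB x y 24 = ((tbl 24).map fun t => (t.2.2 : R) * (x t.1 * y t.2.1 + x t.2.1 * y t.1)).sum := rfl
  rw [h]
  simp only [tbl, List.map_cons, List.map_nil, List.sum_cons, List.sum_nil, Int.cast_one, Int.cast_neg]
  ring

theorem c25 (x y : Fin 49 → R) : mulB x y 25 = (x 0 * y 14 + x 14 * y 0) + -(x 5 * y 8 + x 8 * y 5) := by
  have h : mulB x y 25 = ((tbl 25).map fun t => (t.2.2 : R) * (x t.1 * y t.2.1 + x t.2.1 * y t.1)).sum := rfl
  rw [h]
  simp only [tbl, List.map_cons, List.map_nil, List.sum_cons, List.sum_nil, Int.cast_one, Int.cast_neg]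
  ring

theorem c26 (x y : Fin 49 → R) : mulB x y 26 = (x 1 * y 14 + x 14 * y 1) + -(x 3 * y 12 + x 12 * y 3) := by
  have h : mulB x y 26 = ((tbl 26).map fun t => (t.2.2 : R) * (x t.1 * y t.2.1 + x t.2.1 * y t.1)).sum := rfl
  rw [h]
  simp only [tbl, List.map_cons, List.map_nil, List.sum_cons, List.sum_nil, Int.cast_one, Int.cast_neg]
  ring

theorem c27 (x y : Fin 49 → R) : mulB x y 27 = (x 2 * y 14 + x 14 * y 2) + -(x 3 * y 13 + x 13 * y 3) := by
  have h : mulB x y 27 = ((tbl 27).map fun t => (t.2.2 : R) * (x t.1 * y t.2.1 + x t.2.1 * y t.1)).sum := rfl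
  rw [h]
  simp only [tbl, List.map_cons, List.map_nil, List.sum_cons, List.sum_nil, Int.cast_one, Int.cast_neg]
  ring

theorem c28 (x y : Fin 49 → R) : mulB x y 28 = (x 4 * y 14 + x 14 * y 4) + -(x 5 * y 11 + x 11 * y 5) := by
  have h : mulB x y 28 = ((tbl 28).map fun t => (t.2.2 : R) * (x t.1 * y t.2.1 + x t.2.1 * y t.1)).sum := rfl
  rw [h]
  simp only [tbl, List.map_cons, List.map_nil, List.sum_cons, List.sum_nil, Int.cast_one, Int.cast_neg]
  ring

theorem c29 (x y : Fin 49 → R) : mulB x y 29 = (x 1 * y 17 + x 17 * y 1) + -(x 2 * y 16 + x 16 * y 2) + (x 3 * y 15 + x 15 * y 3) := by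
  have h : mulB x y 29 = ((tbl 29).map fun t => (t.2.2 : R) * (x t.1 * y t.2.1 + x t.2.1 * y t.1)).sum := rfl
  rw [h]
  simp only [tbl, List.map_cons, List.map_nil, List.sum_cons, List.sum_nil, Int.cast_one, Int.cast_neg]
  ring

theorem c30 (x y : Fin 49 → R) : mulB x y 30 = (x 0 * y 20 + x 20 * y 0) + -(x 1 * y 19 + x 19 * y 1) + (x 2 * y 18 + x 18 * y 2) + -(x 4 * y 15 + x 15 * y 4) := by
  have h : mulB x y 30 = ((tbl 30).map fun t => (t.2.2 : R) * (x t.1 * y t.2.1 + x t.2.1 * y t.1)).sum := rfl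
  rw [h]
  simp only [tbl, List.map_cons, List.map_nil, List.sum_cons, List.sum_nil, Int.cast_one, Int.cast_neg]
  ring

theorem c31 (x y : Fin 49 → R) : mulB x y 31 = (x 0 * y 22 + x 22 * y 0) + -(x 4 * y 16 + x 16 * y 4) + -(x 6 * y 11 + x 11 * y 6) + (x 8 * y 9 + x 9 * y 8) := by
  have h : mulB x y 31 = ((tbl 31).map fun t => (t.2.2 : R) * (x t.1 * y t.2.1 + x t.2.1 * y t.1)).sum := rfl
  rw [h]
  simp only [tbl, List.map_cons, List.map_nil, List.sum_cons, List.sum_nil, Int.cast_one, Int.cast_neg]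
  ring

theorem c32 (x y : Fin 49 → R) : mulB x y 32 = (x 1 * y 21 + x 21 * y 1) + -(x 3 * y 18 + x 18 * y 3) + -(x 6 * y 11 + x 11 * y 6) + (x 8 * y 9 + x 9 * y 8) := by
  have h : mulB x y 32 = ((tbl 32).map fun t => (t.2.2 : R) * (x t.1 * y t.2.1 + x t.2.1 * y t.1)).sum := rfl
  rw [h]
  simp only [tbl, List.map_cons, List.map_nil, List.sum_cons, List.sum_nil, Int.cast_one, Int.cast_neg]
  ring

theorem c33 (x y : Fin 49 → R) : mulB x y 33 = (x 0 * y 23 + x 23 * y 0) + -(x 4 * y 17 + x 17 * y 4) + -(x 7 * y 11 + x 11 * y 7) + (x 8 * y 10 + x 10 * y 8) := by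
  have h : mulB x y 33 = ((tbl 33).map fun t => (t.2.2 : R) * (x t.1 * y t.2.1 + x t.2.1 * y t.1)).sum := rfl
  rw [h]
  simp only [tbl, List.map_cons, List.map_nil, List.sum_cons, List.sum_nil, Int.cast_one, Int.cast_neg]
  ring

theorem c34 (x y : Fin 49 → R) : mulB x y 34 = (x 2 * y 21 + x 21 * y 2) + -(x 3 * y 19 + x 19 * y 3) + -(x 7 * y 11 + x 11 * y 7) + (x 8 * y 10 + x 10 * y 8) := by
  have h : mulB x y 34 = ((tbl 34).map fun t => (t.2.2 : R) * (x t.1 * y t.2.1 + x t.2.1 * y t.1)).sum := rfl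
  rw [h]
  simp only [tbl, List.map_cons, List.map_nil, List.sum_cons, List.sum_nil, Int.cast_one, Int.cast_neg]
  ring

theorem c35 (x y : Fin 49 → R) : mulB x y 35 = (x 1 * y 23 + x 23 * y 1) + -(x 2 * y 22 + x 22 * y 2) + (x 3 * y 20 + x 20 * y 3) := by
  have h : mulB x y 35 = ((tbl 35).map fun t => (t.2.2 : R) * (x t.1 * y t.2.1 + x t.2.1 * y t.1)).sum := rfl
  rw [h]
  simp only [tbl, List.map_cons, List.map_nil, List.sum_cons, List.sum_nil, Int.cast_one, Int.cast_neg]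
  ring

theorem c36 (x y : Fin 49 → R) : mulB x y 36 = (x 0 * y 24 + x 24 * y 0) + -(x 5 * y 15 + x 15 * y 5) + -(x 6 * y 13 + x 13 * y 6) + (x 7 * y 12 + x 12 * y 7) := by
  have h : mulB x y 36 = ((tbl 36).map fun t => (t.2.2 : R) * (x t.1 * y t.2.1 + x t.2.1 * y t.1)).sum := rfl
  rw [h]
  simp only [tbl, List.map_cons, List.map_nil, List.sum_cons, List.sum_nil, Int.cast_one, Int.cast_neg]
  ring

theorem c37 (x y : Fin 49 → R) : mulB x y 37 = (x 0 * y 26 + x 26 * y 0) + -(x 5 * y 16 + x 16 * y 5) + -(x 6 * y 14 + x 14 * y 6) + (x 8 * y 12 + x 12 * y 8) := by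
  have h : mulB x y 37 = ((tbl 37).map fun t => (t.2.2 : R) * (x t.1 * y t.2.1 + x t.2.1 * y t.1)).sum := rfl
  rw [h]
  simp only [tbl, List.map_cons, List.map_nil, List.sum_cons, List.sum_nil, Int.cast_one, Int.cast_neg]
  ring

theorem c38 (x y : Fin 49 → R) : mulB x y 38 = (x 0 * y 27 + x 27 * y 0) + -(x 5 * y 17 + x 17 * y 5) + -(x 7 * y 14 + x 14 * y 7) + (x 8 * y 13 + x 13 * y 8) := by
  have h : mulB x y 38 = ((tbl 38).map fun t => (t.2.2 : R) * (x t.1 * y t.2.1 + x t.2.1 * y t.1)).sum := rfl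
  rw [h]
  simp only [tbl, List.map_cons, List.map_nil, List.sum_cons, List.sum_nil, Int.cast_one, Int.cast_neg]
  ring

theorem c39 (x y : Fin 49 → R) : mulB x y 39 = (x 4 * y 24 + x 24 * y 4) + -(x 5 * y 20 + x 20 * y 5) + -(x 9 * y 13 + x 13 * y 9) + (x 10 * y 12 + x 12 * y 10) := by
  have h : mulB x y 39 = ((tbl 39).map fun t => (t.2.2 : R) * (x t.1 * y t.2.1 + x t.2.1 * y t.1)).sum := rfl
  rw [h]
  simp only [tbl, List.map_cons, List.map_nil, List.sum_cons, List.sum_nil, Int.cast_one, Int.cast_neg]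
  ring

theorem c40 (x y : Fin 49 → R) : mulB x y 40 = (x 0 * y 28 + x 28 * y 0) + -(x 4 * y 25 + x 25 * y 4) + (x 5 * y 21 + x 21 * y 5) := by
  have h : mulB x y 40 = ((tbl 40).map fun t => (t.2.2 : R) * (x t.1 * y t.2.1 + x t.2.1 * y t.1)).sum := rfl
  rw [h]
  simp only [tbl, List.map_cons, List.map_nil, List.sum_cons, List.sum_nil, Int.cast_one, Int.cast_neg]
  ring

theorem c41 (x y : Fin 49 → R) : mulB x y 41 = (x 4 * y 26 + x 26 * y 4) + -(x 5 * y 22 + x 22 * y 5) + -(x 9 * y 14 + x 14 * y 9) + (x 11 * y 12 + x 12 * y 11) := by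
  have h : mulB x y 41 = ((tbl 41).map fun t => (t.2.2 : R) * (x t.1 * y t.2.1 + x t.2.1 * y t.1)).sum := rfl
  rw [h]
  simp only [tbl, List.map_cons, List.map_nil, List.sum_cons, List.sum_nil, Int.cast_one, Int.cast_neg]
  ring

theorem c42 (x y : Fin 49 → R) : mulB x y 42 = (x 4 * y 27 + x 27 * y 4) + -(x 5 * y 23 + x 23 * y 5) + -(x 10 * y 14 + x 14 * y 10) + (x 11 * y 13 + x 13 * y 11) := by
  have h : mulB x y 42 = ((tbl 42).map fun t => (t.2.2 : R) * (x t.1 * y t.2.1 + x t.2.1 * y t.1)).sum := rfl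
  rw [h]
  simp only [tbl, List.map_cons, List.map_nil, List.sum_cons, List.sum_nil, Int.cast_one, Int.cast_neg]
  ring

theorem c43 (x y : Fin 49 → R) : mulB x y 43 = (x 0 * y 35 + x 35 * y 0) + -(x 1 * y 33 + x 33 * y 1) + (x 1 * y 34 + x 34 * y 1) + (x 2 * y 31 + x 31 * y 2) + -(x 2 * y 32 + x 32 * y 2) + -(x 3 * y 30 + x 30 * y 3) + -(x 4 * y 29 + x 29 * y 4) := by
  have h : mulB x y 43 = ((tbl 43).map fun t => (t.2.2 : R) * (x t.1 * y t.2.1 + x t.2.1 * y t.1)).sum := rfl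
  rw [h]
  simp only [tbl, List.map_cons, List.map_nil, List.sum_cons, List.sum_nil, Int.cast_one, Int.cast_neg]
  ring

theorem c44 (x y : Fin 49 → R) : mulB x y 44 = (x 1 * y 38 + x 38 * y 1) + -(x 2 * y 37 + x 37 * y 2) + (x 3 * y 36 + x 36 * y 3) + (x 5 * y 29 + x 29 * y 5) + -(x 6 * y 27 + x 27 * y 6) + (x 7 * y 26 + x 26 * y 7) + -(x 8 * y 24 + x 24 * y 8) := by
  have h : mulB x y 44 = ((tbl 44).map fun t => (t.2.2 : R) * (x t.1 * y t.2.1 + x t.2.1 * y t.1)).sum := rfl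
  rw [h]
  simp only [tbl, List.map_cons, List.map_nil, List.sum_cons, List.sum_nil, Int.cast_one, Int.cast_neg]
  ring

theorem c45 (x y : Fin 49 → R) : mulB x y 45 = (x 0 * y 41 + x 41 * y 0) + (x 1 * y 40 + x 40 * y 1) + -(x 4 * y 37 + x 37 * y 4) + (x 5 * y 31 + x 31 * y 5) + -(x 6 * y 28 + x 28 * y 6) + (x 9 * y 25 + x 25 * y 9) + -(x 12 * y 21 + x 21 * y 12) := by
  have h : mulB x y 45 = ((tbl 45).map fun t => (t.2.2 : R) * (x t.1 * y t.2.1 + x t.2.1 * y t.1)).sum := rfl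
  rw [h]
  simp only [tbl, List.map_cons, List.map_nil, List.sum_cons, List.sum_nil, Int.cast_one, Int.cast_neg]
  ring

theorem c46 (x y : Fin 49 → R) : mulB x y 46 = (x 0 * y 42 + x 42 * y 0) + (x 2 * y 40 + x 40 * y 2) + -(x 4 * y 38 + x 38 * y 4) + (x 5 * y 33 + x 33 * y 5) + -(x 7 * y 28 + x 28 * y 7) + (x 10 * y 25 + x 25 * y 10) + -(x 13 * y 21 + x 21 * y 13) := by
  have h : mulB x y 46 = ((tbl 46).map fun t => (t.2.2 : R) * (x t.1 * y t.2.1 + x t.2.1 * y t.1)).sum := rfl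
  rw [h]
  simp only [tbl, List.map_cons, List.map_nil, List.sum_cons, List.sum_nil, Int.cast_one, Int.cast_neg]
  ring

theorem c47 (x y : Fin 49 → R) : mulB x y 47 = (x 1 * y 42 + x 42 * y 1) + -(x 2 * y 41 + x 41 * y 2) + (x 3 * y 39 + x 39 * y 3) + (x 5 * y 35 + x 35 * y 5) + -(x 9 * y 27 + x 27 * y 9) + (x 10 * y 26 + x 26 * y 10) + -(x 11 * y 24 + x 24 * y 11) := by
  have h : mulB x y 47 = ((tbl 47).map fun t => (t.2.2 : R) * (x t.1 * y t.2.1 + x t.2.1 * y t.1)).sum := rfl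
  rw [h]
  simp only [tbl, List.map_cons, List.map_nil, List.sum_cons, List.sum_nil, Int.cast_one, Int.cast_neg]
  ring

theorem c48 (x y : Fin 49 → R) : mulB x y 48 = (x 0 * y 47 + x 47 * y 0) + -(x 1 * y 46 + x 46 * y 1) + (x 2 * y 45 + x 45 * y 2) + -(x 4 * y 44 + x 44 * y 4) + -(x 5 * y 43 + x 43 * y 5) + -(x 8 * y 39 + x 39 * y 8) + (x 11 * y 36 + x 36 * y 11) + (x 12 * y 34 + x 34 * y 12) + -(x 13 * y 32 + x 32 * y 13) + -(x 14 * y 30 + x 30 * y 14) + -(x 15 * y 28 + x 28 * y 15) + (x 18 * y 27 + x 27 * y 18) + -(x 19 * y 26 + x 26 * y 19) + (x 20 * y 25 + x 25 * y 20) := by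
  have h : mulB x y 48 = ((tbl 48).map fun t => (t.2.2 : R) * (x t.1 * y t.2.1 + x t.2.1 * y t.1)).sum := rfl
  rw [h]
  simp only [tbl, List.map_cons, List.map_nil, List.sum_cons, List.sum_nil, Int.cast_one, Int.cast_neg]
  ring

theorem J0 (x y : Fin 49 → R) : mulB (mulB x x) y 0 + 2 * mulB x (mulB x y) 0 = 0 := by
  simp only [c0]
  ring

theorem J1 (x y : Fin 49 → R) : mulB (mulB x x) y 1 + 2 * mulB x (mulB x y) 1 = 0 := by
  simp only [c1]
  ring

theorem J2 (x y : Fin 49 → R) : mulB (mulB x x) y 2 + 2 * mulB x (mulB x y) 2 = 0 := by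
  simp only [c2]
  ring

theorem J3 (x y : Fin 49 → R) : mulB (mulB x x) y 3 + 2 * mulB x (mulB x y) 3 = 0 := by
  simp only [c3]
  ring

theorem J4 (x y : Fin 49 → R) : mulB (mulB x x) y 4 + 2 * mulB x (mulB x y) 4 = 0 := by
  simp only [c4]
  ring

theorem J5 (x y : Fin 49 → R) : mulB (mulB x x) y 5 + 2 * mulB x (mulB x y) 5 = 0 := by
  simp only [c5]
  ring

theorem J6 (x y : Fin 49 → R) : mulB (mulB x x) y 6 + 2 * mulB x (mulB x y) 6 = 0 := by
  simp only [c6, c0, c1]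
  ring

theorem J7 (x y : Fin 49 → R) : mulB (mulB x x) y 7 + 2 * mulB x (mulB x y) 7 = 0 := by
  simp only [c7, c0, c2]
  ring

theorem J8 (x y : Fin 49 → R) : mulB (mulB x x) y 8 + 2 * mulB x (mulB x y) 8 = 0 := by
  simp only [c8, c0, c3]
  ring

theorem J9 (x y : Fin 49 → R) : mulB (mulB x x) y 9 + 2 * mulB x (mulB x y) 9 = 0 := by
  simp only [c9, c1, c4]
  ring

theorem J10 (x y : Fin 49 → R) : mulB (mulB x x) y 10 + 2 * mulB x (mulB x y) 10 = 0 := by
  simp only [c10, c2, c4]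
  ring

theorem J11 (x y : Fin 49 → R) : mulB (mulB x x) y 11 + 2 * mulB x (mulB x y) 11 = 0 := by
  simp only [c11, c3, c4]
  ring

theorem J12 (x y : Fin 49 → R) : mulB (mulB x x) y 12 + 2 * mulB x (mulB x y) 12 = 0 := by
  simp only [c12, c1, c5]
  ring

theorem J13 (x y : Fin 49 → R) : mulB (mulB x x) y 13 + 2 * mulB x (mulB x y) 13 = 0 := by
  simp only [c13, c2, c5]
  ring

theorem J14 (x y : Fin 49 → R) : mulB (mulB x x) y 14 + 2 * mulB x (mulB x y) 14 = 0 := by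
  simp only [c14, c3, c5]
  ring

theorem J15 (x y : Fin 49 → R) : mulB (mulB x x) y 15 + 2 * mulB x (mulB x y) 15 = 0 := by
  simp only [c15, c1, c2, c6, c7]
  ring

theorem J16 (x y : Fin 49 → R) : mulB (mulB x x) y 16 + 2 * mulB x (mulB x y) 16 = 0 := by
  simp only [c16, c1, c3, c6, c8]
  ring

theorem J17 (x y : Fin 49 → R) : mulB (mulB x x) y 17 + 2 * mulB x (mulB x y) 17 = 0 := by
  simp only [c17, c2, c3, c7, c8]
  ring

theorem J18 (x y : Fin 49 → R) : mulB (mulB x x) y 18 + 2 * mulB x (mulB x y) 18 = 0 := by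
  simp only [c18, c0, c4, c6, c9]
  ring

theorem J19 (x y : Fin 49 → R) : mulB (mulB x x) y 19 + 2 * mulB x (mulB x y) 19 = 0 := by
  simp only [c19, c0, c4, c7, c10]
  ring

theorem J20 (x y : Fin 49 → R) : mulB (mulB x x) y 20 + 2 * mulB x (mulB x y) 20 = 0 := by
  simp only [c20, c1, c2, c9, c10]
  ring

theorem J21 (x y : Fin 49 → R) : mulB (mulB x x) y 21 + 2 * mulB x (mulB x y) 21 = 0 := by
  simp only [c21, c0, c4, c8, c11]
  ring

theorem J22 (x y : Fin 49 → R) : mulB (mulB x x) y 22 + 2 * mulB x (mulB x y) 22 = 0 := by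
  simp only [c22, c1, c3, c9, c11]
  ring

theorem J23 (x y : Fin 49 → R) : mulB (mulB x x) y 23 + 2 * mulB x (mulB x y) 23 = 0 := by
  simp only [c23, c2, c3, c10, c11]
  ring

theorem J24 (x y : Fin 49 → R) : mulB (mulB x x) y 24 + 2 * mulB x (mulB x y) 24 = 0 := by
  simp only [c24, c1, c2, c12, c13]
  ring

theorem J25 (x y : Fin 49 → R) : mulB (mulB x x) y 25 + 2 * mulB x (mulB x y) 25 = 0 := by
  simp only [c25, c0, c5, c8, c14]
  ring

theorem J26 (x y : Fin 49 → R) : mulB (mulB x x) y 26 + 2 * mulB x (mulB x y) 26 = 0 := by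
  simp only [c26, c1, c3, c12, c14]
  ring

theorem J27 (x y : Fin 49 → R) : mulB (mulB x x) y 27 + 2 * mulB x (mulB x y) 27 = 0 := by
  simp only [c27, c2, c3, c13, c14]
  ring

theorem J28 (x y : Fin 49 → R) : mulB (mulB x x) y 28 + 2 * mulB x (mulB x y) 28 = 0 := by
  simp only [c28, c4, c5, c11, c14]
  ring

theorem J29 (x y : Fin 49 → R) : mulB (mulB x x) y 29 + 2 * mulB x (mulB x y) 29 = 0 := by
  simp only [c29, c1, c2, c3, c15, c16, c17]
  ring

theorem J30 (x y : Fin 49 → R) : mulB (mulB x x) y 30 + 2 * mulB x (mulB x y) 30 = 0 := by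
  simp only [c30, c0, c1, c2, c4, c15, c18, c19, c20]
  ring

theorem J31 (x y : Fin 49 → R) : mulB (mulB x x) y 31 + 2 * mulB x (mulB x y) 31 = 0 := by
  simp only [c31, c0, c4, c6, c8, c9, c11, c16, c22]
  ring

theorem J32 (x y : Fin 49 → R) : mulB (mulB x x) y 32 + 2 * mulB x (mulB x y) 32 = 0 := by
  simp only [c32, c1, c3, c6, c8, c9, c11, c18, c21]
  ring

theorem J33 (x y : Fin 49 → R) : mulB (mulB x x) y 33 + 2 * mulB x (mulB x y) 33 = 0 := by
  simp only [c33, c0, c4, c7, c8, c10, c11, c17, c23]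
  ring

theorem J34 (x y : Fin 49 → R) : mulB (mulB x x) y 34 + 2 * mulB x (mulB x y) 34 = 0 := by
  simp only [c34, c2, c3, c7, c8, c10, c11, c19, c21]
  ring

theorem J35 (x y : Fin 49 → R) : mulB (mulB x x) y 35 + 2 * mulB x (mulB x y) 35 = 0 := by
  simp only [c35, c1, c2, c3, c20, c22, c23]
  ring

theorem J36 (x y : Fin 49 → R) : mulB (mulB x x) y 36 + 2 * mulB x (mulB x y) 36 = 0 := by
  simp only [c36, c0, c5, c6, c7, c12, c13, c15, c24]
  ring

theorem J37 (x y : Fin 49 → R) : mulB (mulB x x) y 37 + 2 * mulB x (mulB x y) 37 = 0 := by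
  simp only [c37, c0, c5, c6, c8, c12, c14, c16, c26]
  ring

theorem J38 (x y : Fin 49 → R) : mulB (mulB x x) y 38 + 2 * mulB x (mulB x y) 38 = 0 := by
  simp only [c38, c0, c5, c7, c8, c13, c14, c17, c27]
  ring

theorem J39 (x y : Fin 49 → R) : mulB (mulB x x) y 39 + 2 * mulB x (mulB x y) 39 = 0 := by
  simp only [c39, c4, c5, c9, c10, c12, c13, c20, c24]
  ring

theorem J40 (x y : Fin 49 → R) : mulB (mulB x x) y 40 + 2 * mulB x (mulB x y) 40 = 0 := by
  simp only [c40, c0, c4, c5, c21, c25, c28]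
  ring

theorem J41 (x y : Fin 49 → R) : mulB (mulB x x) y 41 + 2 * mulB x (mulB x y) 41 = 0 := by
  simp only [c41, c4, c5, c9, c11, c12, c14, c22, c26]
  ring

theorem J42 (x y : Fin 49 → R) : mulB (mulB x x) y 42 + 2 * mulB x (mulB x y) 42 = 0 := by
  simp only [c42, c4, c5, c10, c11, c13, c14, c23, c27]
  ring

theorem J43 (x y : Fin 49 → R) : mulB (mulB x x) y 43 + 2 * mulB x (mulB x y) 43 = 0 := by
  simp only [c43, c0, c1, c2, c3, c4, c29, c30, c31, c32, c33, c34, c35]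
  ring

theorem J44 (x y : Fin 49 → R) : mulB (mulB x x) y 44 + 2 * mulB x (mulB x y) 44 = 0 := by
  simp only [c44, c1, c2, c3, c5, c6, c7, c8, c24, c26, c27, c29, c36, c37, c38]
  ring

theorem J45 (x y : Fin 49 → R) : mulB (mulB x x) y 45 + 2 * mulB x (mulB x y) 45 = 0 := by
  simp only [c45, c0, c1, c4, c5, c6, c9, c12, c21, c25, c28, c31, c37, c40, c41]
  ring

theorem J46 (x y : Fin 49 → R) : mulB (mulB x x) y 46 + 2 * mulB x (mulB x y) 46 = 0 := by
  simp only [c46, c0, c2, c4, c5, c7, c10, c13, c21, c25, c28, c33, c38, c40, c42]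
  ring

theorem J47 (x y : Fin 49 → R) : mulB (mulB x x) y 47 + 2 * mulB x (mulB x y) 47 = 0 := by
  simp only [c47, c1, c2, c3, c5, c9, c10, c11, c24, c26, c27, c35, c39, c41, c42]
  ring

theorem J48 (x y : Fin 49 → R) : mulB (mulB x x) y 48 + 2 * mulB x (mulB x y) 48 = 0 := by
  simp only [c48, c0, c1, c2, c4, c5, c8, c11, c12, c13, c14, c15, c18, c19, c20, c25, c26, c27, c28, c30, c32, c34, c36, c39, c43, c44, c45, c46, c47]
  ring

theorem Jall (x y : Fin 49 → R) (k : Fin 49) :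
    mulB (mulB x x) y k + 2 * mulB x (mulB x y) k = 0 := by
  fin_cases k
  · exact J0 x y
  · exact J1 x y
  · exact J2 x y
  · exact J3 x y
  · exact J4 x y
  · exact J5 x y
  · exact J6 x y
  · exact J7 x y
  · exact J8 x y
  · exact J9 x y
  · exact J10 x y
  · exact J11 x y
  · exact J12 x y
  · exact J13 x y
  · exact J14 x y
  · exact J15 x y
  · exact J16 x y
  · exact J17 x y
  · exact J18 x y
  · exact J19 x y
  · exact J20 x y
  · exact J21 x y
  · exact J22 x y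
  · exact J23 x y
  · exact J24 x y
  · exact J25 x y
  · exact J26 x y
  · exact J27 x y
  · exact J28 x y
  · exact J29 x y
  · exact J30 x y
  · exact J31 x y
  · exact J32 x y
  · exact J33 x y
  · exact J34 x y
  · exact J35 x y
  · exact J36 x y
  · exact J37 x y
  · exact J38 x y
  · exact J39 x y
  · exact J40 x y
  · exact J41 x y
  · exact J42 x y
  · exact J43 x y
  · exact J44 x y
  · exact J45 x y
  · exact J46 x y
  · exact J47 x y
  · exact J48 x y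

end R

end Pool.Agent.U104.AT

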