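import Pool.Agent.U104.AT.Model

set_option autoImplicit false
set_option linter.all false

/-! The algebra of rank 49 as an alternative algebra, and the value of `T`. -/

namespace Pool.Agent.U104.AT

open Pool.Agent.H999R3

/-- The algebra of rank 49 over `R`. -/
def MB (R : Type) : Type := Fin 49 → R

section inst

variable {R : Type} [CommRing R]

instance : AddCommGroup (MB R) := inferInstanceAs (AddCommGroup (Fin 49 → R))

instance : Mul (MB R) := ⟨fun x y => mulB (R := R) x y⟩

theorem mb_mul (x y : MB R) : x * y = mulB (R := R) x y := rfl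

theorem mb_comm (x y : MB R) : x * y = y * x := mulB_comm (R := R) x y

theorem mb_add (x y z : MB R) : x * (y + z) = x * y + x * z := mulB_add (R := R) x y z

instance : NonUnitalNonAssocRing (MB R) :=
  { (inferInstance : AddCommGroup (MB R)), (inferInstance : Mul (MB R)) with
    left_distrib := mb_add
    right_distrib := fun x y z => by rw [mb_comm, mb_add, mb_comm z x, mb_comm z y]
    zero_mul := fun x => by rw [mb_comm]; exact mulB_zero (R := R) x
    mul_zero := fun x => mulB_zero (R := R) x }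

theorem mb_alt (h3 : (3 : R) = 0) (x y : MB R) : (x * x) * y = x * (x * y) := by
  funext k
  have h := Jall (R := R) x y k
  show mulB (mulB x x) y k = mulB x (mulB x y) k
  linear_combination h - mulB x (mulB x y) k * h3

theorem mb_isAlt (h3 : (3 : R) = 0) : IsAlt (MB R) := by
  intro x y
  refine ⟨mb_alt h3 x y, ?_⟩
  rw [mb_comm (y * x) x, mb_comm y x, mb_comm y (x * x), mb_alt h3 x y]

theorem mb_isAlt' (h3 : (3 : R) = 0) : Helper805.Nuc.Tens.IsAlt (MB R) :=
  ⟨fun a b => (mb_isAlt h3 a b).1, fun a b => (mb_isAlt h3 a b).2⟩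

variable {Φ : Type} [CommRing Φ] [Algebra Φ R]

instance : Module Φ (MB R) := inferInstanceAs (Module Φ (Fin 49 → R))

theorem mb_smul (c : Φ) (x y : MB R) : x * (c • y) = c • (x * y) := by
  have e : ∀ z : Fin 49 → R, c • z = algebraMap Φ R c • z := by
    intro z
    funext k
    simp only [Pi.smul_apply]
    rw [Algebra.smul_def, smul_eq_mul]
  exact (congrArg (mulB (R := R) x) (e y)).trans
    ((mulB_smul (algebraMap Φ R c) x y).trans (e (mulB (R := R) x y)).symm)

instance : SMulCommClass Φ (MB R) (MB R) := ⟨fun c x y => by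
  rw [smul_eq_mul, smul_eq_mul, mb_smul]⟩

instance : IsScalarTower Φ (MB R) (MB R) := ⟨fun c x y => by
  rw [smul_eq_mul, smul_eq_mul, mb_comm (c • x) y, mb_smul, mb_comm y x]⟩

end inst


section eval

variable {R : Type} [CommRing R]

/-- the basis elements -/
def e (i : Fin 49) : MB R := fun k => if k = i then 1 else 0

theorem p0_2 : (e 0 : MB R) * e 2 = e 7 := by
  funext k
  show mulB (R := R) (e 0) (e 2) k = e (R := R) 7 k
  fin_cases k <;> simp [mulB, tbl, e]

theorem p1_4 : (e 1 : MB R) * e 4 = e 9 := by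
  funext k
  show mulB (R := R) (e 1) (e 4) k = e (R := R) 9 k
  fin_cases k <;> simp [mulB, tbl, e]

theorem p3_5 : (e 3 : MB R) * e 5 = e 14 := by
  funext k
  show mulB (R := R) (e 3) (e 5) k = e (R := R) 14 k
  fin_cases k <;> simp [mulB, tbl, e]

theorem p0_3 : (e 0 : MB R) * e 3 = e 8 := by
  funext k
  show mulB (R := R) (e 0) (e 3) k = e (R := R) 8 k
  fin_cases k <;> simp [mulB, tbl, e]

theorem p1_5 : (e 1 : MB R) * e 5 = e 12 := by
  funext k
  show mulB (R := R) (e 1) (e 5) k = e (R := R) 12 k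
  fin_cases k <;> simp [mulB, tbl, e]

theorem p2_4 : (e 2 : MB R) * e 4 = e 10 := by
  funext k
  show mulB (R := R) (e 2) (e 4) k = e (R := R) 10 k
  fin_cases k <;> simp [mulB, tbl, e]

theorem p2_3 : (e 2 : MB R) * e 3 = 0 := by
  funext k
  show mulB (R := R) (e 2) (e 3) k = 0
  fin_cases k <;> simp [mulB, tbl, e]

theorem p4_5 : (e 4 : MB R) * e 5 = 0 := by
  funext k
  show mulB (R := R) (e 4) (e 5) k = 0
  fin_cases k <;> simp [mulB, tbl, e]

theorem p0_4 : (e 0 : MB R) * e 4 = 0 := by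
  funext k
  show mulB (R := R) (e 0) (e 4) k = 0
  fin_cases k <;> simp [mulB, tbl, e]

theorem p1_3 : (e 1 : MB R) * e 3 = 0 := by
  funext k
  show mulB (R := R) (e 1) (e 3) k = 0
  fin_cases k <;> simp [mulB, tbl, e]

theorem p0_5 : (e 0 : MB R) * e 5 = 0 := by
  funext k
  show mulB (R := R) (e 0) (e 5) k = 0
  fin_cases k <;> simp [mulB, tbl, e]

theorem p1_2 : (e 1 : MB R) * e 2 = 0 := by
  funext k
  show mulB (R := R) (e 1) (e 2) k = 0
  fin_cases k <;> simp [mulB, tbl, e]

theorem p7_9 : (e 7 : MB R) * e 9 = 0 := by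
  funext k
  show mulB (R := R) (e 7) (e 9) k = 0
  fin_cases k <;> simp [mulB, tbl, e]

theorem p9_14 : (e 9 : MB R) * e 14 = -e 41 := by
  funext k
  show mulB (R := R) (e 9) (e 14) k = -(e (R := R) 41 k)
  fin_cases k <;> simp [mulB, tbl, e]

theorem p7_41 : (e 7 : MB R) * e 41 = 0 := by
  funext k
  show mulB (R := R) (e 7) (e 41) k = 0
  fin_cases k <;> simp [mulB, tbl, e]

theorem p8_12 : (e 8 : MB R) * e 12 = e 37 := by
  funext k
  show mulB (R := R) (e 8) (e 12) k = e (R := R) 37 k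
  fin_cases k <;> simp [mulB, tbl, e]

theorem p37_10 : (e 37 : MB R) * e 10 = 0 := by
  funext k
  show mulB (R := R) (e 37) (e 10) k = 0
  fin_cases k <;> simp [mulB, tbl, e]

theorem p12_10 : (e 12 : MB R) * e 10 = e 39 := by
  funext k
  show mulB (R := R) (e 12) (e 10) k = e (R := R) 39 k
  fin_cases k <;> simp [mulB, tbl, e]

theorem p8_39 : (e 8 : MB R) * e 39 = -e 48 := by
  funext k
  show mulB (R := R) (e 8) (e 39) k = -(e (R := R) 48 k)
  fin_cases k <;> simp [mulB, tbl, e]

theorem me_comm (i j : Fin 49) : (e i : MB R) * e j = e j * e i := mb_comm _ _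

theorem jor_e {i j m : Fin 49} (h : (e i : MB R) * e j = e m) : jor (e i : MB R) (e j) = e m + e m := by
  unfold jor
  rw [me_comm j i, h]

theorem jor_z {i j : Fin 49} (h : (e i : MB R) * e j = 0) : jor (e i : MB R) (e j) = 0 := by
  unfold jor
  rw [me_comm j i, h, add_zero]

theorem as_dbl (u v w : MB R) : as (u + u) (v + v) (w + w) = (8 : ℤ) • as u v w := by
  simp only [as_add1, as_add2, as_add3]
  abel

theorem as_z1 (v w : MB R) : as 0 v w = 0 := by unfold as; simp
theorem as_z2 (v w : MB R) : as v 0 w = 0 := by unfold as; simp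
theorem as_z3 (v w : MB R) : as v w 0 = 0 := by unfold as; simp

/-- the first six basis elements -/
def gens : Fin 6 → MB R := ![e 0, e 1, e 2, e 3, e 4, e 5]

theorem tor_gens : tor (gens : Fin 6 → MB R) = (8 : ℤ) • e 48 := by
  have g0 : (gens : Fin 6 → MB R) 0 = e 0 := rfl
  have g1 : (gens : Fin 6 → MB R) 1 = e 1 := rfl
  have g2 : (gens : Fin 6 → MB R) 2 = e 2 := rfl
  have g3 : (gens : Fin 6 → MB R) 3 = e 3 := rfl
  have g4 : (gens : Fin 6 → MB R) 4 = e 4 := rfl
  have g5 : (gens : Fin 6 → MB R) 5 = e 5 := rfl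
  unfold tor
  rw [g0, g1, g2, g3, g4, g5, jor_z p2_3, jor_z p4_5, jor_e p0_2, jor_e p1_4, jor_e p3_5, jor_e p0_3,
    jor_e p1_5, jor_e p2_4, jor_z p0_4, jor_z p1_3, jor_z p0_5, jor_z p1_2, as_z2, as_z1, as_z1,
    as_dbl, as_dbl]
  have h1 : as (e 7 : MB R) (e 9) (e 14) = 0 := by
    unfold as
    rw [p7_9, p9_14, zero_mul, mul_neg, p7_41, neg_zero, sub_zero]
  have h2 : as (e 8 : MB R) (e 12) (e 10) = e 48 := by
    unfold as
    rw [p8_12, p37_10, p12_10, p8_39, zero_sub, neg_neg]
  rw [h1, h2, smul_zero, zero_add, zero_add, add_zero, add_zero]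

end eval

end Pool.Agent.U104.AT
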