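import Pool.Agent.Y850.ZN.Indep
import Pool.Agent.H999R3.AltBasic

set_option autoImplicit false
set_option linter.all false

/-! Twice the elements `[n, t] (p, q, r)`, `n` nuclear, lie in an ideal contained in the nucleus. -/

namespace Pool.Agent.U104.Sep

open Pool.Agent.Helper805.Nuc Pool.Agent.Helper805.Nuc.Tens Pool.Agent.Helper805.Nuc.NFun
  Pool.Agent.Helper805.Nuc.Alt Pool.Agent.Helper805.Nuc.Free Pool.Agent.Helper805.Mod Pool.Agent.Y850.ZN

section general

variable {A : Type} [NonUnitalNonAssocRing A] (hA : IsAlt A)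
include hA

/-- nuclear elements commute with associators -/
theorem nuc_as {n : A} (hn : IsNuc n) (a b c : A) : n * as a b c = as a b c * n := by
  have h := cocycle a b c n
  rw [hn.three hA, hn.three hA, hn.three hA, mul_zero] at h
  have h2 : as a b (c * n) = n * as a b c := by
    rw [pc2 hA a b (c * n), hn.mul_right hA, ← pc2 hA a b c]
  rw [h2] at h
  linear_combination (norm := abel) - h

theorem br_as {n : A} (hn : IsNuc n) (a b c : A) : br n (as a b c) = 0 := by
  unfold br
  rw [nuc_as hA hn, sub_self]

omit hA in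
/-- the function `[n, t] (p, q, r)` -/
def G (n t p q r : A) : A := br n t * as p q r

omit hA in
theorem kf_def (w x y z : A) : as (w * x) y z = x * as w y z + as x y z * w +
    (as (w * x) y z - x * as w y z - as x y z * w) := by abel

/-- Kleinfeld's function -/
theorem kf23 (w x y z : A) : as (w * x) y z - x * as w y z - as x y z * w =
    -(as (w * y) x z - y * as w x z - as y x z * w) := by
  have hB : Pool.Agent.H999R3.IsAlt A := fun x y => ⟨hA.left x y, hA.right x y⟩
  exact Pool.Agent.H999R3.kf_swap23 hB w x y z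

theorem G_swap01 {n : A} (hn : IsNuc n) (x t y z : A) : G n x t y z = -G n t x y z := by
  -- kf (n w) x y z = n kf w x y z + [n, x] (w, y, z)
  have key : ∀ w x y z : A, as ((n * w) * x) y z - x * as (n * w) y z - as x y z * (n * w) =
      n * (as (w * x) y z - x * as w y z - as x y z * w) + G n x w y z := by
    intro w x y z
    have e1 : (n * w) * x = n * (w * x) := sub_eq_zero.1 (hn w x)
    have e2 : x * (n * as w y z) = (x * n) * as w y z := (sub_eq_zero.1 (hn.two hA x (as w y z))).symm
    have e3 : n * (x * as w y z) = (n * x) * as w y z := (sub_eq_zero.1 (hn x (as w y z))).symm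
    have e4 : as x y z * (n * w) = (as x y z * n) * w :=
      (sub_eq_zero.1 (hn.two hA (as x y z) w)).symm
    have e5 : n * (as x y z * w) = (n * as x y z) * w := (sub_eq_zero.1 (hn (as x y z) w)).symm
    rw [e1, hn.mul_left hA, hn.mul_left hA, e2, mul_sub, mul_sub, e3, e4, e5, nuc_as hA hn x y z]
    unfold G br
    rw [sub_mul]
    abel
  have k6 : ∀ a b c d : A, G n a b c d = -G n a c b d := by
    intro a b c d
    unfold G
    rw [p12 hA b c d, mul_neg]
  -- x t y z -> y t x z ; combine with swaps of the associator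
  have k7 : ∀ x t y z : A, G n x t y z = -G n y t x z := by
    intro x t y z
    have k1 := key t x y z
    have k2 := key t y x z
    have k3 := kf23 hA (n * t) x y z
    have k4 := kf23 hA t x y z
    have h1 : G n x t y z = (as ((n * t) * x) y z - x * as (n * t) y z - as x y z * (n * t)) -
        n * (as (t * x) y z - x * as t y z - as x y z * t) := by rw [k1]; abel
    have h2 : G n y t x z = (as ((n * t) * y) x z - y * as (n * t) x z - as y x z * (n * t)) -
        n * (as (t * y) x z - y * as t x z - as y x z * t) := by rw [k2]; abel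
    rw [h1, h2, k3, k4, mul_neg]
    abel
  rw [k6 x t y z, k7 x y t z, k6 t y x z, neg_neg]

theorem G_12 (n t p q r : A) : G n t p q r = -G n t q p r := by
  unfold G; rw [p12 hA p q r, mul_neg]

theorem G_23 (n t p q r : A) : G n t p q r = -G n t p r q := by
  unfold G; rw [p23 hA p q r, mul_neg]

/-- `[n, t] (p, q, r)` is nuclear -/
theorem G_nuc {n : A} (hn : IsNuc n) (t p q r : A) : IsNuc (G n t p q r) := by
  intro a b
  have h1 : as (G n t p q r) a b = G n t (as p q r) a b := by
    unfold G
    rw [(hn.comm hA t).mul_left hA]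
  rw [h1, G_swap01 hA hn]
  unfold G
  rw [br_as hA hn, zero_mul, neg_zero]

omit hA in
/-- `[n, t] (p, q, r) (a, b, c)` -/
def K (n t p q r a b c : A) : A := G n t p q r * as a b c

/-- the exchange of two triples -/
theorem K_exch {n : A} (hn : IsNuc n) (t p q r s a b : A) :
    K n t p q r s a b = K n t s a b p q r := by
  have h1 : as (G n t p q r * s) a b = K n t p q r s a b := by
    unfold K
    rw [(G_nuc hA hn t p q r).mul_left hA]
  have h2 : G n t p q r * s = br n t * (as p q r * s) := by
    unfold G
    exact sub_eq_zero.1 (hn.comm hA t (as p q r) s)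
  have h3 : as (br n t * (as p q r * s)) a b = G n t (as p q r * s) a b := by
    unfold G
    rw [(hn.comm hA t).mul_left hA]
  have h4 : br n (as p q r * s) = as p q r * br n s := by
    unfold br
    have e1 : n * (as p q r * s) = (n * as p q r) * s := (sub_eq_zero.1 (hn _ _)).symm
    have e2 : (as p q r * s) * n = as p q r * (s * n) := sub_eq_zero.1 (hn.three hA _ _)
    have e3 : (as p q r * n) * s = as p q r * (n * s) := sub_eq_zero.1 (hn.two hA _ _)
    rw [e1, nuc_as hA hn, e2, e3, mul_sub]
  have h5 : G n (as p q r * s) t a b = K n s t a b p q r := by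
    show br n (as p q r * s) * as t a b = G n s t a b * as p q r
    rw [h4, nuc_as hA (G_nuc hA hn s t a b) p q r]
    unfold G
    exact sub_eq_zero.1 ((hn.comm hA s).two hA _ _)
  rw [← h1, h2, h3, G_swap01 hA hn, h5]
  unfold K
  rw [G_swap01 hA hn s t a b, neg_mul, neg_neg]

theorem K_01 {n : A} (hn : IsNuc n) (t p q r a b c : A) : K n t p q r a b c = -K n p t q r a b c := by
  unfold K; rw [G_swap01 hA hn, neg_mul]
theorem K_12 (n t p q r a b c : A) : K n t p q r a b c = -K n t q p r a b c := by
  unfold K; rw [G_12 hA, neg_mul]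
theorem K_23 (n t p q r a b c : A) : K n t p q r a b c = -K n t p r q a b c := by
  unfold K; rw [G_23 hA, neg_mul]
theorem K_a12 (n t p q r a b c : A) : K n t p q r a b c = -K n t p q r b a c := by
  unfold K; rw [p12 hA a b c, mul_neg]
theorem K_a23 (n t p q r a b c : A) : K n t p q r a b c = -K n t p q r a c b := by
  unfold K; rw [p23 hA a b c, mul_neg]

/-- a transposition between the two groups -/
theorem K_tr {n : A} (hn : IsNuc n) (t p q r a b c : A) :
    K n t p q r a b c = -K n t a q r p b c := by
  rw [K_exch hA hn t p q r a b c, K_01 hA hn t a b c p q r, K_exch hA hn a t b c p q r,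
    K_01 hA hn a p q r t b c, K_exch hA hn p a q r t b c, K_01 hA hn p t b c a q r,
    K_exch hA hn t p b c a q r, neg_neg]

/-- twice the product of `[n, t] (p, q, r)` and an associator is zero -/
theorem K_two {n : A} (hn : IsNuc n) (t p q r a b c : A) :
    K n t p q r a b c + K n t p q r a b c = 0 := by
  have h1 := K_tr hA hn t p q r a b c
  -- exchange q and b
  have h2 : K n t a q r p b c = -K n t a b r p q c := by
    rw [K_12 hA n t a q r p b c, K_a12 hA n t q a r p b c, K_tr hA hn t q a r b p c,
      K_12 hA n t b a r q p c, K_a12 hA n t a b r q p c]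
    simp only [neg_neg]
  have h3 : K n t a b r p q c = -K n t a b c p q r := by
    rw [K_23 hA n t a b r p q c, K_12 hA n t a r b p q c, K_a23 hA n t r a b p q c,
      K_a12 hA n t r a b p c q, K_tr hA hn t r a b c p q, K_12 hA n t c a b r p q,
      K_23 hA n t a c b r p q, K_a12 hA n t a b c r p q, K_a23 hA n t a b c p r q]
    simp only [neg_neg]
  have h4 := K_exch hA hn t a b c p q r
  rw [h2, h3, h4, neg_neg] at h1
  exact eq_neg_iff_add_eq_zero.1 h1

/-- the nuclear elements annihilating the associators -/
def W (Φ : Type) [CommRing Φ] (A : Type) [NonUnitalNonAssocRing A] [Module Φ A]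
    [IsScalarTower Φ A A] [SMulCommClass Φ A A] : Submodule Φ A where
  carrier := {x | (∀ a b : A, as x a b = 0) ∧ ∀ a b c : A, x * as a b c = 0}
  add_mem' := by
    rintro x y ⟨h1, h2⟩ ⟨h3, h4⟩
    refine ⟨fun a b => ?_, fun a b c => ?_⟩
    · rw [as_add1, h1, h3, add_zero]
    · rw [add_mul, h2, h4, add_zero]
  zero_mem' := ⟨fun a b => as_z1 _ _, fun a b c => zero_mul _⟩
  smul_mem' := by
    rintro r x ⟨h1, h2⟩
    refine ⟨fun a b => ?_, fun a b c => ?_⟩
    · have : as (r • x) a b = r • as x a b := by unfold as; simp only [smul_mul_assoc, smul_sub]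
      rw [this, h1, smul_zero]
    · rw [smul_mul_assoc, h2, smul_zero]

omit hA in
theorem W_le (hA : IsAlt A) {Φ : Type} [CommRing Φ] [Module Φ A] [IsScalarTower Φ A A]
    [SMulCommClass Φ A A] : W Φ A ≤ nucleus Φ A := fun x hx => (mem_nucleus hA).2 hx.1

theorem W_ideal {Φ : Type} [CommRing Φ] [Module Φ A] [IsScalarTower Φ A A]
    [SMulCommClass Φ A A] : IsIdeal Φ A (W Φ A) := by
  rintro s x ⟨h1, h2⟩
  have hx : IsNuc x := h1
  refine ⟨⟨fun a b => ?_, fun a b c => ?_⟩, ⟨fun a b => ?_, fun a b c => ?_⟩⟩
  · rw [hx.mul_right hA, h2]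
  · have e : (s * x) * as a b c = s * (x * as a b c) := sub_eq_zero.1 (hx.two hA _ _)
    rw [e, h2, mul_zero]
  · rw [hx.mul_left hA, h2]
  · have e : (x * s) * as a b c = x * (s * as a b c) := sub_eq_zero.1 (hx _ _)
    have e2 : x * (as s a b * c) = (x * as s a b) * c := (sub_eq_zero.1 (hx _ _)).symm
    have e3 := cocycle s a b c
    have e4 : s * as a b c = as (s * a) b c - as s (a * b) c + as s a (b * c) - as s a b * c := by
      linear_combination (norm := abel) e3
    rw [e, e4, mul_sub, mul_add, mul_sub, h2, h2, h2, e2, h2, zero_mul]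
    simp

/-- Twice `[n, t] (p, q, r)` lies in `W`. -/
theorem two_G_mem {Φ : Type} [CommRing Φ] [Module Φ A] [IsScalarTower Φ A A]
    [SMulCommClass Φ A A] {n : A} (hn : IsNuc n) (t p q r : A) :
    G n t p q r + G n t p q r ∈ W Φ A := by
  refine ⟨fun a b => ?_, fun a b c => ?_⟩
  · rw [as_add1, G_nuc hA hn, add_zero]
  · rw [add_mul]
    exact K_two hA hn t p q r a b c

end general

end Pool.Agent.U104.Sep
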