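import Pool.Agent.U104.AT.Sep

set_option autoImplicit false
set_option linter.all false

/-! Independent elements of `D ∩ U` in free alternative algebras. -/

namespace Pool.Agent.U104.Sep

open Pool.Agent.Helper805.Nuc Pool.Agent.Helper805.Nuc.Tens Pool.Agent.Helper805.Nuc.NFun
  Pool.Agent.Helper805.Nuc.Alt Pool.Agent.Helper805.Nuc.Free Pool.Agent.Helper805.Mod Pool.Agent.Y850.ZN

section general

variable {A : Type} [NonUnitalNonAssocRing A]

/-- twice `[n, w 6] (w 7, w 8, w 9)`, `n` the nuclear element -/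
def uu (w : Fin 10 → A) : A :=
  G (nn w) (w 6) (w 7) (w 8) (w 9) + G (nn w) (w 6) (w 7) (w 8) (w 9)

theorem uu_eq (w : Fin 10 → A) : uu w = (4 * 373248 : ℤ) • (br (nf (fun i : Fin 5 =>
    w (Fin.castLE (by norm_num) i)) (w 5)) (w 6) * as (w 7) (w 8) (w 9)) := by
  unfold uu G nn
  rw [br_zsmul1, smul_mul_assoc, ← add_smul]
  norm_num

lemma map_uu {B : Type} [NonUnitalNonAssocRing B] (g : A →ₙ+* B) (w : Fin 10 → A) :
    g (uu w) = uu (fun i => g (w i)) := by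
  rw [uu_eq, uu_eq, map_zsmul, map_mul, Clean.map_br, Clean.map_nf, Clean.map_as]

lemma uu_zero : uu (fun _ => (0 : A)) = 0 := by
  rw [uu_eq, as_z1, mul_zero, smul_zero]

theorem uu_mem (hA : IsAlt A) {Φ : Type} [CommRing Φ] [Module Φ A] [IsScalarTower Φ A A]
    [SMulCommClass Φ A A] (w : Fin 10 → A) : uu w ∈ W Φ A :=
  two_G_mem hA (nn_nuc hA w) _ _ _ _

theorem uu_memU (hA : IsAlt A) {Φ : Type} [CommRing Φ] [Module Φ A] [IsScalarTower Φ A A]
    [SMulCommClass Φ A A] (w : Fin 10 → A) : uu w ∈ Uideal Φ A := by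
  have h : W Φ A ≤ Uideal Φ A := le_sSup ⟨W_ideal hA, W_le hA⟩
  exact h (uu_mem hA w)

theorem uu_memD {Φ : Type} [CommRing Φ] [Module Φ A] [IsScalarTower Φ A A]
    [SMulCommClass Φ A A] (w : Fin 10 → A) : uu w ∈ Dideal Φ A := by
  have h : G (nn w) (w 6) (w 7) (w 8) (w 9) ∈ Dideal Φ A := by
    refine (isIdeal_idealGen _ (br (nn w) (w 6)) _ (sub_idealGen _ ?_)).1
    exact ⟨w 7, w 8, w 9, rfl⟩
  exact Submodule.add_mem _ h h

end general

/-- The independence of the elements `uu` in disjoint sets of generators. -/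
theorem indep (Φ : Type) [CommRing Φ] (X I : Type) (ι : I × Fin 9 ↪ X) (c : I →₀ Φ)
    (hc : (c.sum fun i r => r • uu (fun j => (FreeAlt.gen (ι (i, Wit.jx j)) : FreeAlt Φ X))) = 0)
    (i₀ : I) : IsNilpotent (6 * c i₀) := by
  classical
  by_contra hnil
  rw [nilpotent_iff_mem_prime] at hnil
  push Not at hnil
  obtain ⟨P, hP, h6P⟩ := hnil
  let K : Type := FractionRing (Φ ⧸ P)
  let φ : Φ →+* K := (algebraMap (Φ ⧸ P) K).comp (Ideal.Quotient.mk P)
  have hφ : ∀ x : Φ, φ x = 0 → x ∈ P := by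
    intro x hx
    have h2 : (algebraMap (Φ ⧸ P) K) (Ideal.Quotient.mk P x) = 0 := hx
    rw [map_eq_zero_iff _ (IsFractionRing.injective (Φ ⧸ P) K)] at h2
    exact Ideal.Quotient.eq_zero_iff_mem.mp h2
  have hK6 : (6 : K) ≠ 0 := by
    intro h
    apply h6P
    refine P.mul_mem_right _ (hφ 6 ?_)
    rw [map_ofNat]; exact h
  have hKc : φ (c i₀) ≠ 0 := fun h => h6P (P.mul_mem_left _ (hφ _ h))
  have hK2 : (2 : K) ≠ 0 := by
    intro h
    apply hK6
    have : (6 : K) = 2 * 3 := by norm_num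
    rw [this, h, zero_mul]
  have hK3 : (3 : K) ≠ 0 := by
    intro h
    apply hK6
    have : (6 : K) = 2 * 3 := by norm_num
    rw [this, h, mul_zero]
  obtain ⟨v, hv⟩ := Wit.witness K hK6
  letI : Module Φ (Env.BS K) := Module.compHom (Env.BS K) φ
  haveI : IsScalarTower Φ (Env.BS K) (Env.BS K) := ⟨fun r a b => smul_mul_assoc (φ r) a b⟩
  haveI : SMulCommClass Φ (Env.BS K) (Env.BS K) := ⟨fun r a b => (mul_smul_comm (φ r) a b).symm⟩
  let f : X → Env.BS K := fun x => if h : ∃ i, ι (i₀, i) = x then v h.choose else (0 : Env.BS K)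
  have hf : ∀ i, f (ι (i₀, i)) = v i := by
    intro i
    have h : ∃ j, ι (i₀, j) = ι (i₀, i) := ⟨i, rfl⟩
    show (if h : ∃ j, ι (i₀, j) = ι (i₀, i) then v h.choose else 0) = v i
    rw [dif_pos h]
    have h2 := ι.injective h.choose_spec
    exact congrArg v (Prod.mk.inj h2).2
  have hf0 : ∀ i j, i ≠ i₀ → f (ι (i, j)) = 0 := by
    intro i j hi
    refine dif_neg ?_
    rintro ⟨j', hj'⟩
    exact hi (Prod.mk.inj (ι.injective hj')).1.symm
  let g : FreeAlt Φ X →ₙₐ[Φ] Env.BS K := FreeAlt.lift (Env.BS_alt K hK2) f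
  let g' : FreeAlt Φ X →ₙ+* Env.BS K :=
    { toFun := g, map_mul' := map_mul g, map_zero' := map_zero g, map_add' := map_add g }
  have hg : ∀ i, g' (FreeAlt.gen (ι (i₀, i))) = v i := fun i =>
    (FreeAlt.lift_gen (Env.BS_alt K hK2) f (ι (i₀, i))).trans (hf i)
  have hg0 : ∀ i j, i ≠ i₀ → g' (FreeAlt.gen (ι (i, j))) = 0 := fun i j hi =>
    (FreeAlt.lift_gen (Env.BS_alt K hK2) f (ι (i, j))).trans (hf0 i j hi)
  have hgs : ∀ (r : Φ) (a : FreeAlt Φ X), g' (r • a) = φ r • g' a := fun r a => map_smul g r a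
  have hsum : g' (c.sum fun i r => r • uu (fun j => (FreeAlt.gen (ι (i, Wit.jx j)) : FreeAlt Φ X))) =
      φ (c i₀) • uu (fun j => v (Wit.jx j)) := by
    rw [Finsupp.sum, map_sum]
    rw [Finset.sum_eq_single i₀]
    · rw [hgs, map_uu]
      simp only [hg]
    · intro i _ hi
      rw [hgs, map_uu]
      have h : (fun j => g' (FreeAlt.gen (ι (i, Wit.jx j)))) = fun _ => (0 : Env.BS K) := by
        funext j
        exact hg0 i _ hi
      rw [h, uu_zero, smul_zero]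
    · intro hi
      rw [Finsupp.notMem_support_iff.1 hi, zero_smul, map_zero]
  have h2 := congrArg g' hc
  rw [hsum, map_zero] at h2
  have h4 := (smul_eq_zero.mp h2).resolve_left hKc
  rw [uu_eq] at h4
  apply hv
  have h5 : ((4 * 373248 : ℤ) : K) ≠ 0 := by
    have h6 : ((4 * 373248 : ℤ) : K) = 2 ^ 11 * 3 ^ 6 := by norm_num
    rw [h6]
    exact mul_ne_zero (pow_ne_zero _ hK2) (pow_ne_zero _ hK3)
  rw [← Int.cast_smul_eq_zsmul K] at h4
  exact (smul_eq_zero.mp h4).resolve_left h5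

/-- `D ∩ U` is not zero. -/
theorem exists_ne (Φ : Type) [CommRing Φ] (h6 : ¬ IsNilpotent (6 : Φ)) (X : Type) (ι : Fin 9 ↪ X) :
    ∃ z ∈ Dideal Φ (FreeAlt Φ X) ⊓ Uideal Φ (FreeAlt Φ X), z ≠ 0 := by
  let κ : Unit × Fin 9 ↪ X := (Equiv.punitProd (Fin 9)).toEmbedding.trans ι
  refine ⟨uu (fun j => (FreeAlt.gen (κ ((), Wit.jx j)) : FreeAlt Φ X)),
    ⟨uu_memD _, uu_memU FreeAlt.isAlt _⟩, fun h => h6 ?_⟩
  have h2 := indep Φ X Unit κ (Finsupp.single () 1) (by
    rw [Finsupp.sum_single_index (by rw [zero_smul]), one_smul]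
    exact h) ()
  rwa [Finsupp.single_eq_same, mul_one] at h2

theorem exists_indep (Φ : Type) [CommRing Φ] (hΦ : ∀ c : Φ, IsNilpotent (6 * c) → c = 0)
    (X I : Type) (ι : I × Fin 9 ↪ X) :
    ∃ z : I → FreeAlt Φ X, (∀ i, z i ∈ Dideal Φ (FreeAlt Φ X) ⊓ Uideal Φ (FreeAlt Φ X)) ∧
      LinearIndependent Φ z := by
  refine ⟨fun i => uu (fun j => (FreeAlt.gen (ι (i, Wit.jx j)) : FreeAlt Φ X)),
    fun i => ⟨uu_memD _, uu_memU FreeAlt.isAlt _⟩, ?_⟩
  rw [linearIndependent_iff]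
  intro l hl
  ext i
  refine hΦ _ (indep Φ X I ι l ?_ i)
  rw [← hl, Finsupp.linearCombination_apply]

end Pool.Agent.U104.Sep
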